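import Pool.Agent.H.MP_4f47f1_al.B

set_option autoImplicit false

namespace Pool.Agent.H.MP_44c8f1_al

open Function Pointwise Pool.Agent.H.MP_4f47f1_al

lemma normal_of_gen {Y : Type} [Group Y] (S V D : Subgroup Y) [V.Normal] (h : S ⊔ V = ⊤)
    (h1 : ∀ s ∈ S, ∀ d ∈ D, s * d * s⁻¹ ∈ D) (h2 : ∀ v ∈ V, ∀ d ∈ D, v * d = d * v) :
    D.Normal := ⟨fun d hd g => by
  have : g ∈ (S : Set Y) * (V : Set Y) := by rw [← Subgroup.mul_normal, h]; trivial
  obtain ⟨s, hs, v, hv, rfl⟩ := this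
  have e : s * v * d * (s * v)⁻¹ = s * d * s⁻¹ := by
    calc s * v * d * (s * v)⁻¹ = s * (v * d) * v⁻¹ * s⁻¹ := by group
      _ = s * (d * v) * v⁻¹ * s⁻¹ := by rw [h2 v hv d hd]
      _ = _ := by group
  show s * v * d * (s * v)⁻¹ ∈ D
  rw [e]; exact h1 s hs d hd⟩

lemma prim {Y : Type} [Group Y] (V : Subgroup Y) [hV : V.Normal] (hb : V ≠ ⊥)
    (hM : ∀ N : Subgroup Y, N.Normal → N ≠ ⊥ → V ≤ N) (hF : frattini Y = ⊥) :
    ∃ θ : XG V →* Y, Surjective θ := by
  by_cases hc : ∀ a ∈ V, ∀ b ∈ V, a * b = b * a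
  · obtain ⟨S, hS, hVS⟩ : ∃ S : Subgroup Y, IsCoatom S ∧ ¬ V ≤ S := by
      by_contra hcon
      push Not at hcon
      apply hb
      rw [eq_bot_iff, ← hF]
      exact le_iInf₂ fun S hS => hcon S hS
    have htop : S ⊔ V = ⊤ := hS.2 _ (left_lt_sup.2 hVS)
    have hinf : V ⊓ S = ⊥ := by
      by_contra hne
      refine hVS ((hM _ (normal_of_gen S V _ htop ?_ ?_) hne).trans inf_le_right)
      · intro s hs d hd
        exact ⟨hV.conj_mem _ hd.1 _, S.mul_mem (S.mul_mem hs hd.2) (S.inv_mem hs)⟩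
      · intro v hv d hd
        exact hc v hv d hd.1
    have hD : Subgroup.centralizer (V : Set Y) ⊓ S = ⊥ := by
      by_contra hne
      refine hVS ((hM _ (normal_of_gen S V _ htop ?_ ?_) hne).trans inf_le_right)
      · intro s hs d hd
        exact ⟨(Subgroup.normal_centralizer (H := V)).conj_mem _ hd.1 _,
          S.mul_mem (S.mul_mem hs hd.2) (S.inv_mem hs)⟩
      · intro v hv d hd
        exact hd.1 v hv
    let e : S ≃* Y ⧸ V := MulEquiv.ofBijective ((QuotientGroup.mk' V).comp S.subtype) (by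
      constructor
      · rw [← MonoidHom.ker_eq_bot_iff, eq_bot_iff]
        rintro ⟨x, hx⟩ h
        have h1 : x ∈ V := (QuotientGroup.eq_one_iff x).1 h
        have : x ∈ V ⊓ S := ⟨h1, hx⟩
        rw [hinf] at this
        exact Subtype.ext this
      · intro q
        obtain ⟨g, rfl⟩ := QuotientGroup.mk_surjective q
        have : g ∈ (S : Set Y) * (V : Set Y) := by rw [← Subgroup.mul_normal, htop]; trivial
        obtain ⟨s, hs, v, hv, rfl⟩ := this
        refine ⟨⟨s, hs⟩, ?_⟩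
        show (s : Y ⧸ V) = (s * v : Y)
        rw [QuotientGroup.eq]; simpa using hv)
    let s : Y →* Y := S.subtype.comp (e.symm.toMonoidHom.comp (QuotientGroup.mk' V))
    have hs1 : ∀ y, s y ∈ S := fun y => (e.symm (y : Y ⧸ V)).2
    have hs2 : ∀ y, y⁻¹ * s y ∈ V := fun y => by
      rw [← QuotientGroup.eq]
      exact (e.apply_symm_apply (y : Y ⧸ V)).symm
    let θ : Gt V →* Y := MonoidHom.mk' (fun x => x.1.1 * x.1.2⁻¹ * s x.1.2) (by
      rintro ⟨⟨a, b⟩, h⟩ ⟨⟨a', b'⟩, h'⟩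
      have e1 := hc _ (hs2 b) _ (show a' * b'⁻¹ ∈ V from h')
      show a * a' * (b * b')⁻¹ * s (b * b') = a * b⁻¹ * s b * (a' * b'⁻¹ * s b')
      rw [map_mul]
      calc a * a' * (b * b')⁻¹ * (s b * s b') = a * (a' * b'⁻¹ * (b⁻¹ * s b)) * s b' := by group
        _ = a * (b⁻¹ * s b * (a' * b'⁻¹)) * s b' := by rw [e1]
        _ = _ := by group)
    refine ⟨QuotientGroup.lift (Rt V) θ ?_, lift_surj _ _ _ ?_⟩
    · rintro ⟨⟨a, b⟩, h⟩ ⟨h1, h2⟩
      simp only at h1 h2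
      subst h1
      show a * a⁻¹ * s a = 1
      have : s a ∈ Subgroup.centralizer (V : Set Y) ⊓ S := by
        refine ⟨?_, hs1 a⟩
        have e1 : s a = a * (a⁻¹ * s a) := by group
        rw [e1]
        exact Subgroup.mul_mem _ (fun m hm => h2 m hm) (fun m hm => hc m hm _ (hs2 a))
      rw [hD] at this
      simpa using this
    · intro y
      refine ⟨⟨(y * (s y)⁻¹ * y, y), ?_⟩, ?_⟩
      · show y * (s y)⁻¹ * y * y⁻¹ ∈ V
        have : y * (s y)⁻¹ * y * y⁻¹ = y * (y⁻¹ * s y)⁻¹ * y⁻¹ := by group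
        rw [this]; exact hV.conj_mem _ (V.inv_mem (hs2 y)) _
      · show y * (s y)⁻¹ * y * y⁻¹ * s y = y
        group
  · have hC : Subgroup.centralizer (V : Set Y) = ⊥ := by
      by_contra hne
      exact hc fun a ha b hb => hM _ Subgroup.normal_centralizer hne hb a ha
    refine ⟨QuotientGroup.lift (Rt V) ((MonoidHom.snd _ _).comp (Gt V).subtype) ?_,
      lift_surj _ _ _ ?_⟩
    · rintro ⟨⟨a, b⟩, h⟩ ⟨h1, h2⟩
      have : b ∈ Subgroup.centralizer (V : Set Y) := fun m hm => h2 m hm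
      rw [hC] at this
      exact this
    · intro y
      exact ⟨⟨(y, y), show y * y⁻¹ ∈ V by simp⟩, rfl⟩

def Sat (F : Cl) : Prop := ∀ (G : Type) [Group G] [Finite G], F (G ⧸ frattini G) → F G

lemma ind (K : Cl) (P : Cl) (hfin : ∀ (G : Type) [Group G], P G → Finite G)
    (hq : ∀ (G : Type) [Group G] (N : Subgroup G) [N.Normal], P G → P (G ⧸ N))
    (h : ∀ (G : Type) [Group G], P G → (∀ (N : Subgroup G) [N.Normal], N ≠ ⊥ → K (G ⧸ N)) → K G) :
    ∀ (G : Type) [Group G], P G → K G := by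
  have : ∀ n : ℕ, ∀ (G : Type) [Group G], Nat.card G = n → P G → K G := by
    intro n
    induction n using Nat.strong_induction_on with
    | _ n ih =>
      intro G _ hn hP
      refine h G hP fun N _ hN => ?_
      have := hfin G hP
      refine ih _ ?_ _ rfl (hq G N hP)
      rw [← hn, Subgroup.card_eq_card_quotient_mul_card_subgroup N]
      have h1 : 1 < Nat.card N := (Subgroup.one_lt_card_iff_ne_bot N).2 hN
      have h2 : 0 < Nat.card (G ⧸ N) := Nat.card_pos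
      nlinarith
  intro G _ hP
  exact this _ G rfl hP

theorem sat_left (B C : Fm) (h1 : Sat (B ⊓ C).mem) (h2 : Sat (B ⊔ C).mem) : Sat B.mem := by
  intro G _ _ hG
  refine ind B.mem (fun G _ => Finite G ∧ B.mem (G ⧸ frattini G)) (fun _ _ h => h.1) ?_ ?_ G
    ⟨inferInstance, hG⟩
  · rintro G _ N _ ⟨_, h⟩
    refine ⟨inferInstance, B.ok.qr (QuotientGroup.mk' (frattini G)) (QuotientGroup.mk' (frattini G))
      ((QuotientGroup.mk' _).comp (QuotientGroup.mk' N)) (QuotientGroup.mk'_surjective _)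
      (QuotientGroup.mk'_surjective _)
      ((QuotientGroup.mk'_surjective _).comp (QuotientGroup.mk'_surjective _)) h h ?_⟩
    rw [inf_idem, QuotientGroup.ker_mk', ← MonoidHom.comap_ker, QuotientGroup.ker_mk']
    exact frattini_le_comap_frattini_of_surjective (QuotientGroup.mk'_surjective _)
  rintro G _ ⟨_, hG⟩ hq
  by_cases hC : C.mem G
  · exact (h1 G ⟨hG, C.ok.2.1 _ _ (QuotientGroup.mk' _) (QuotientGroup.mk'_surjective _) hC⟩).1
  rcases sup_cases B C (h2 G ((le_sup_left : B ≤ B ⊔ C) _ hG)) with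
    h | h | ⟨E, B1, C1, _, _, _, f1, f2, g, s1, s2, sg, x1, x2, hk⟩
  · exact h
  · exact (hC h).elim
  set L : Subgroup E := (g.ker ⊓ f1.ker) ⊔ f2.ker with hL
  have hLn : L.Normal := by rw [hL]; infer_instance
  have hU : f2.ker.map g ≠ ⊥ := fun h => hC (C.ok.qr f2 f2 g s2 s2 sg x2 x2 (by
    rw [inf_idem]; exact (Subgroup.map_eq_bot_iff _).1 h))
  have hUn : (f2.ker.map g).Normal := Subgroup.Normal.map inferInstance g sg
  have hCY : ∀ (Y : Type) [Group Y] (π : E →* Y), Surjective π → L ≤ π.ker → C.mem Y :=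
    fun Y _ π sπ hπ => C.ok.qr f2 f2 π s2 s2 sπ x2 x2 (by
      rw [inf_idem]; exact le_sup_right.trans hπ)
  have key : ∀ (Y : Type) [Group Y], (∃ π : E →* Y, Surjective π ∧ L ≤ π.ker) → (B ⊓ C).mem Y := by
    refine ind (B ⊓ C).mem (fun Y _ => ∃ π : E →* Y, Surjective π ∧ L ≤ π.ker) ?_ ?_ ?_
    · rintro Y _ ⟨π, sπ, hπ⟩
      exact C.ok.1 Y (hCY Y π sπ hπ)
    · rintro Y _ N _ ⟨π, sπ, hπ⟩
      refine ⟨(QuotientGroup.mk' N).comp π, (QuotientGroup.mk'_surjective _).comp sπ,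
        fun x hx => ?_⟩
      have : π x = 1 := hπ hx
      simp [this]
    rintro Y _ ⟨π, sπ, hπ⟩ hqY
    have yC := hCY Y π sπ hπ
    have := C.ok.1 Y yC
    by_contra hY
    have hKn : (g.ker.map π).Normal := Subgroup.Normal.map inferInstance π sπ
    by_cases hK : g.ker.map π = ⊥
    · refine hY ⟨B.ok.qr ((QuotientGroup.mk' (f2.ker.map g)).comp g)
        ((QuotientGroup.mk' (f2.ker.map g)).comp g) π ((QuotientGroup.mk'_surjective _).comp sg)
        ((QuotientGroup.mk'_surjective _).comp sg) sπ (hq _ hU) (hq _ hU) ?_, yC⟩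
      rw [inf_idem, ← MonoidHom.comap_ker, QuotientGroup.ker_mk', Subgroup.comap_map_eq]
      exact sup_le (le_sup_right.trans hπ) ((Subgroup.map_eq_bot_iff _).1 hK)
    obtain ⟨V, hVn, hVb, hV⟩ := monolith (B ⊓ C) ⟨B.ok.triv x1, C.ok.triv x2⟩ hY hqY
    have hF : frattini Y = ⊥ := by
      by_contra hne
      exact hY (h1 Y (hqY _ hne))
    obtain ⟨θ, hθ⟩ := prim V hVb hV hF
    refine hY ⟨B.ok.2.1 _ _ θ hθ ?_, yC⟩
    refine bk B.ok V π f1 sπ s1 x1 (V.comap π ⊓ g.ker) (fun u hu => hu.1) ?_ ?_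
    · intro m hm
      obtain ⟨u, hu, rfl⟩ := hV _ hKn hK hm
      exact ⟨u, ⟨hm, hu⟩, rfl⟩
    · intro u hu h
      exact hπ (Subgroup.mem_sup_left ⟨hu.2, h⟩)
  refine B.ok.qr f1 (QuotientGroup.mk' L) g s1 (QuotientGroup.mk'_surjective L) sg x1
    (key _ ⟨QuotientGroup.mk' L, QuotientGroup.mk'_surjective L, by rw [QuotientGroup.ker_mk']⟩).1 ?_
  rw [QuotientGroup.ker_mk']
  rintro x ⟨hx1, hx2⟩
  have hx3 : x ∈ ((g.ker ⊓ f1.ker : Subgroup E) : Set E) * (f2.ker : Set E) := by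
    rw [← Subgroup.mul_normal]; exact hx2
  obtain ⟨a, ha, b, hb, rfl⟩ := hx3
  have : b ∈ f1.ker := by
    have := f1.ker.mul_mem (f1.ker.inv_mem ha.2) hx1
    simpa using this
  exact g.ker.mul_mem ha.1 (hk ⟨this, hb⟩)

end Pool.Agent.H.MP_44c8f1_al
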